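import Pool.Agent.T2H24.MT.Defs

/-!
# Package AS : choice of the parameters

PROOF.  `y = log e`, `s = ⌈y^15⌉`, `m₀ = ⌈200 log y⌉`.  `s ≤ 2 y^15`,
`exp (0.4 log (s^2)) = exp (0.8 log s) ≤ 2 y^12`.  `0.92^m₀ ≤ exp (-0.08 * 200 log y) = y^(-16)`,
so `0.92^m₀ (2y)^13 ≤ 1` and the left hand side of the last inequality is `≤ 26 * 2 * y^12 ≤ y^13`.
`log ((s^2)^(m₀+1)) = 2 (m₀+1) log s ≤ 2 (200 log y + 2)(15 log y + 1) ≤ y` for large `y`
since `(log y)^2 = o(y)`.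
-/
namespace Pool.Agent.T2H24.MT

open Real Filter

theorem params : ∃ e₀ : ℕ, ∀ e : ℕ, e₀ ≤ e → ∃ s m₀ : ℕ, (log (e : ℝ)) ^ 15 ≤ (s : ℝ) ∧ 2 ≤ s ∧
    s ≤ e ∧ 1 ≤ m₀ ∧ (s ^ 2) ^ (m₀ + 1) ≤ e ∧
    (25 + (0.92 : ℝ) ^ m₀ * (log ((e : ℝ) ^ 2)) ^ 13) * exp (0.4 * log ((s : ℝ) ^ 2)) ≤
      (log (e : ℝ)) ^ 13 := by
  have hlog : Tendsto (fun e : ℕ => log (e : ℝ)) atTop atTop :=
    Real.tendsto_log_atTop.comp tendsto_natCast_atTop_atTop
  have hA : ∀ᶠ y : ℝ in atTop, 6464 * (log y) ^ 2 ≤ y := by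
    have h1 := (Real.isLittleO_pow_log_id_atTop (n := 2)).def (c := 1 / 6464) (by norm_num)
    filter_upwards [h1, eventually_ge_atTop (1 : ℝ)] with y hy hy1
    rw [Real.norm_of_nonneg (by positivity), id, Real.norm_of_nonneg (by linarith)] at hy
    linarith
  have hB : ∀ᶠ y : ℝ in atTop, 6464 * (log y) ^ 2 ≤ y ∧ 52 ≤ y :=
    hA.and (eventually_ge_atTop 52)
  obtain ⟨e₀, he₀⟩ := eventually_atTop.1 ((hlog.eventually hB).and (eventually_ge_atTop 1))
  refine ⟨e₀, fun e he => ?_⟩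
  obtain ⟨⟨h1, h2⟩, he1⟩ := he₀ e he
  set y := log (e : ℝ) with hy
  have hepos : (0 : ℝ) < e := by exact_mod_cast he1
  have hey : exp y = e := Real.exp_log hepos
  have hly : 1 ≤ log y := by
    rw [Real.le_log_iff_exp_le (by linarith)]
    have := Real.exp_one_lt_d9
    linarith
  have hlyy : exp (log y) = y := Real.exp_log (by linarith)
  have hs1 : y ^ 15 ≤ (⌈y ^ 15⌉₊ : ℝ) := Nat.le_ceil _
  have hy15 : 1 ≤ y ^ 15 := one_le_pow₀ (by linarith)
  have hs2 : (⌈y ^ 15⌉₊ : ℝ) ≤ 2 * y ^ 15 := by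
    have := (Nat.ceil_lt_add_one (by positivity : (0 : ℝ) ≤ y ^ 15)).le
    linarith
  have hm1 : 200 * log y ≤ (⌈200 * log y⌉₊ : ℝ) := Nat.le_ceil _
  have hm2 : (⌈200 * log y⌉₊ : ℝ) ≤ 200 * log y + 1 :=
    (Nat.ceil_lt_add_one (by positivity : (0 : ℝ) ≤ 200 * log y)).le
  set s := ⌈y ^ 15⌉₊ with hs
  set m₀ := ⌈200 * log y⌉₊ with hm
  have hs3 : (2 : ℝ) ≤ s := by
    have : y ≤ y ^ 15 := by
      calc y = y ^ 1 := (pow_one y).symm
        _ ≤ y ^ 15 := pow_le_pow_right₀ (by linarith) (by norm_num)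
    linarith
  have hs4 : 2 ≤ s := by exact_mod_cast hs3
  have hm3 : 1 ≤ m₀ := by
    have : (1 : ℝ) ≤ m₀ := by linarith
    exact_mod_cast this
  have hls : log (s : ℝ) ≤ 16 * log y := by
    have h3 : log (s : ℝ) ≤ log (2 * y ^ 15) := Real.log_le_log (by linarith) hs2
    rw [Real.log_mul (by norm_num) (by positivity), Real.log_pow] at h3
    have h4 : log 2 ≤ log y := Real.log_le_log (by norm_num) (by linarith)
    push_cast at h3
    linarith
  have hls0 : 0 ≤ log (s : ℝ) := Real.log_nonneg (by linarith)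
  have h5 : (s ^ 2) ^ (m₀ + 1) ≤ e := by
    have h6 : (((s ^ 2) ^ (m₀ + 1) : ℕ) : ℝ) ≤ e := by
      push_cast
      rw [← hey, ← Real.log_le_iff_le_exp (by positivity), Real.log_pow, Real.log_pow]
      push_cast
      have h7 : (m₀ : ℝ) + 1 ≤ 202 * log y := by linarith
      calc ((m₀ : ℝ) + 1) * (2 * log (s : ℝ)) ≤ (202 * log y) * (2 * (16 * log y)) := by
            gcongr
        _ = 6464 * (log y) ^ 2 := by ring
        _ ≤ y := h1
    exact_mod_cast h6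
  refine ⟨s, m₀, hs1, hs4, ?_, hm3, h5, ?_⟩
  · refine le_trans ?_ h5
    calc s = s ^ 1 := (pow_one s).symm
      _ ≤ s ^ (2 * (m₀ + 1)) := Nat.pow_le_pow_right (by omega) (by omega)
      _ = (s ^ 2) ^ (m₀ + 1) := pow_mul _ _ _
  · have h8 : exp (0.4 * log ((s : ℝ) ^ 2)) ≤ 2 * y ^ 12 := by
      have h9 : 0.4 * log ((s : ℝ) ^ 2) ≤ log 2 + 12 * log y := by
        rw [Real.log_pow]
        have h3 : log (s : ℝ) ≤ log (2 * y ^ 15) := Real.log_le_log (by linarith) hs2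
        rw [Real.log_mul (by norm_num) (by positivity), Real.log_pow] at h3
        push_cast at h3 ⊢
        have h4 : 0 ≤ log 2 := Real.log_nonneg (by norm_num)
        linarith
      calc exp (0.4 * log ((s : ℝ) ^ 2)) ≤ exp (log 2 + 12 * log y) := Real.exp_le_exp.2 h9
        _ = 2 * y ^ 12 := by
          rw [Real.exp_add, Real.exp_log (by norm_num),
            show 12 * log y = ((12 : ℕ) : ℝ) * log y by norm_num, Real.exp_nat_mul, hlyy]
    have h10 : (0.92 : ℝ) ^ m₀ * (log ((e : ℝ) ^ 2)) ^ 13 ≤ 1 := by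
      have h11 : (0.92 : ℝ) ^ m₀ ≤ exp (-(16 * log y)) := by
        calc (0.92 : ℝ) ^ m₀ ≤ (exp (-0.08)) ^ m₀ := by
              refine pow_le_pow_left₀ (by norm_num) ?_ _
              have := Real.add_one_le_exp (-0.08 : ℝ)
              linarith
          _ = exp (m₀ * (-0.08)) := (Real.exp_nat_mul _ _).symm
          _ ≤ exp (-(16 * log y)) := Real.exp_le_exp.2 (by linarith)
      have h12 : exp (-(16 * log y)) = (y ^ 16)⁻¹ := by
        rw [Real.exp_neg, show 16 * log y = ((16 : ℕ) : ℝ) * log y by norm_num, Real.exp_nat_mul,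
          hlyy]
      rw [h12] at h11
      rw [Real.log_pow, ← hy]
      push_cast
      have hy0 : 0 < y := by linarith
      calc (0.92 : ℝ) ^ m₀ * (2 * y) ^ 13 ≤ (y ^ 16)⁻¹ * (2 * y) ^ 13 := by gcongr
        _ = 8192 / y ^ 3 := by field_simp; ring
        _ ≤ 1 := by
          rw [div_le_one (by positivity)]
          calc (8192 : ℝ) ≤ 52 ^ 3 := by norm_num
            _ ≤ y ^ 3 := pow_le_pow_left₀ (by norm_num) h2 3
    have h13 : 0 ≤ (0.92 : ℝ) ^ m₀ * (log ((e : ℝ) ^ 2)) ^ 13 := by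
      rw [Real.log_pow, ← hy]
      push_cast
      have hy0 : 0 < y := by linarith
      positivity
    calc _ ≤ (25 + 1) * (2 * y ^ 12) := by gcongr
      _ = 52 * y ^ 12 := by ring
      _ ≤ y * y ^ 12 := by gcongr
      _ = y ^ 13 := by ring

end Pool.Agent.T2H24.MT
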