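import Pool.Agent.T2H24.MT.Defs

/-!
# Package DU : existence of `V` and duality

PROOFS.  `exists_V`: well-founded recursion on `x - e`.
`V_ge_one`: strong induction on `x - e`.
`duality`: put `v n = V n / T n`; then `1/T n = v n - ∑_{n < m ≤ x, T n ∣ T m} v m`; multiply by
`a n`, sum over `1 ≤ n ≤ x`, interchange: `∑ a n / T n = ∑_m v m (a m - ∑_{n < m, T n ∣ T m} a n)
≤ v 1 * a 1`.
-/
namespace Pool.Agent.T2H24.MT

open Real

noncomputable def VV (x : ℕ) (e : ℕ) : ℝ :=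
  1 + ∑ n ∈ (Finset.Ioc e x).attach,
    if T e ∣ T n.1 then (T e : ℝ) / (T n.1 : ℝ) * VV x n.1 else 0
termination_by x - e
decreasing_by
  have := Finset.mem_Ioc.mp n.2
  omega

theorem exists_V (x : ℕ) : ∃ V : ℕ → ℝ, IsV x V := by
  refine ⟨VV x, fun e => ?_⟩
  rw [VV]
  congr 1
  rw [Finset.sum_attach (Finset.Ioc e x)
    (fun n => if T e ∣ T n then (T e : ℝ) / (T n : ℝ) * VV x n else 0), Finset.sum_filter]

theorem V_ge_one (x : ℕ) (V : ℕ → ℝ) (hV : IsV x V) (e : ℕ) : 1 ≤ V e := by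
  have key : ∀ d : ℕ, ∀ e : ℕ, x - e ≤ d → 1 ≤ V e := by
    intro d
    induction d with
    | zero =>
      intro e hd
      rw [hV e, Finset.Ioc_eq_empty_of_le (by omega)]
      simp
    | succ d ih =>
      intro e hd
      rw [hV e]
      have : 0 ≤ ∑ n ∈ (Finset.Ioc e x).filter (fun n => T e ∣ T n),
          (T e : ℝ) / (T n : ℝ) * V n := by
        refine Finset.sum_nonneg fun n hn => ?_
        have hn1 := Finset.mem_Ioc.mp (Finset.mem_filter.mp hn).1
        have := ih n (by omega)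
        positivity
      linarith
  exact key (x - e) e le_rfl

theorem duality (x : ℕ) (hx : 1 ≤ x) (V : ℕ → ℝ) (hV : IsV x V) (a : ℕ → ℝ) (_ha : ∀ n, 0 ≤ a n)
    (h : ∀ m ∈ Finset.Icc 2 x, a m ≤ ∑ d ∈ (Finset.Ico 1 m).filter (fun d => T d ∣ T m), a d) :
    ∑ n ∈ Finset.Icc 1 x, a n / (T n : ℝ) ≤ a 1 * V 1 := by
  have hTpos : ∀ n, 1 ≤ n → (0 : ℝ) < T n := fun n hn => by exact_mod_cast T_pos hn
  have h1 : ∀ n ∈ Finset.Icc 1 x, a n / (T n : ℝ) = a n * (V n / T n) -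
      ∑ m ∈ (Finset.Ioc n x).filter (fun m => T n ∣ T m), a n * (V m / T m) := by
    intro n hn
    have hn1 := (Finset.mem_Icc.mp hn).1
    have hT := hTpos n hn1
    have h2 : V n / T n = 1 / T n +
        ∑ m ∈ (Finset.Ioc n x).filter (fun m => T n ∣ T m), V m / T m := by
      conv_lhs => rw [hV n]
      rw [add_div, Finset.sum_div]
      congr 1
      refine Finset.sum_congr rfl fun m hm => ?_
      field_simp
    rw [h2, mul_add, ← Finset.mul_sum]
    ring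
  rw [Finset.sum_congr rfl h1, Finset.sum_sub_distrib]
  have hswap : ∑ n ∈ Finset.Icc 1 x, ∑ m ∈ (Finset.Ioc n x).filter (fun m => T n ∣ T m),
      a n * (V m / T m) = ∑ m ∈ Finset.Icc 1 x, ∑ n ∈ (Finset.Ico 1 m).filter (fun n => T n ∣ T m),
      a n * (V m / T m) := by
    refine Finset.sum_comm' fun n m => ?_
    simp only [Finset.mem_Icc, Finset.mem_filter, Finset.mem_Ioc, Finset.mem_Ico]
    constructor
    · rintro ⟨⟨h1, h2⟩, ⟨h3, h4⟩, h5⟩
      exact ⟨⟨⟨h1, h3⟩, h5⟩, ⟨by omega, h4⟩⟩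
    · rintro ⟨⟨⟨h1, h3⟩, h5⟩, ⟨h6, h4⟩⟩
      exact ⟨⟨h1, by omega⟩, ⟨h3, h4⟩, h5⟩
  rw [hswap, ← Finset.sum_sub_distrib]
  have hsplit : Finset.Icc 1 x = insert 1 (Finset.Icc 2 x) := by
    ext m
    simp only [Finset.mem_Icc, Finset.mem_insert]
    omega
  rw [hsplit, Finset.sum_insert (by simp)]
  have h1' : a 1 * (V 1 / T 1) - ∑ n ∈ (Finset.Ico 1 1).filter (fun n => T n ∣ T 1),
      a n * (V 1 / T 1) = a 1 * V 1 := by
    simp [T_one]
  rw [h1']
  have h2' : ∑ m ∈ Finset.Icc 2 x, (a m * (V m / T m) -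
      ∑ n ∈ (Finset.Ico 1 m).filter (fun n => T n ∣ T m), a n * (V m / T m)) ≤ 0 := by
    refine Finset.sum_nonpos fun m hm => ?_
    rw [← Finset.sum_mul, ← sub_mul]
    have hm1 := (Finset.mem_Icc.mp hm).1
    have hT := hTpos m (by omega)
    have hVm := V_ge_one x V hV m
    refine mul_nonpos_of_nonpos_of_nonneg ?_ (by positivity)
    have := h m hm
    linarith
  linarith

end Pool.Agent.T2H24.MT
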