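import Mathlib

/-!
# MP_175962_nt : the series `∑ μ_T(i)/T(i)` converges absolutely.  Definitions.

`T n = n(n+1)/2`.  `IsV x V` says that `V : ℕ → ℝ` is the function with
`V e = 1 + ∑_{e < n ≤ x, T e ∣ T n} (T e / T n) V n`
(so `V e = ∑_{n ≤ x} (number of chains from e to n) * T e / T n`).
-/
namespace Pool.Agent.T2H24.MT

/-- The `n`-th triangular number. -/
def T (n : ℕ) : ℕ := n * (n + 1) / 2

theorem two_T (n : ℕ) : 2 * T n = n * (n + 1) := by
  unfold T
  exact Nat.mul_div_cancel' (Nat.even_mul_succ_self n).two_dvd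

theorem T_pos {n : ℕ} (h : 1 ≤ n) : 1 ≤ T n := by
  have := two_T n
  nlinarith

theorem T_one : T 1 = 1 := rfl

theorem T_strictMono : StrictMono T := by
  refine strictMono_nat_of_lt_succ fun n => ?_
  have h1 := two_T n
  have h2 := two_T (n + 1)
  nlinarith

/-- `8 T n + 1 = (2n+1)^2`. -/
theorem eight_T (n : ℕ) : 1 + 8 * T n = (2 * n + 1) ^ 2 := by
  have h := two_T n
  nlinarith

/-- The recursion defining the weighted chain count up to `x`. -/
def IsV (x : ℕ) (V : ℕ → ℝ) : Prop :=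
  ∀ e : ℕ, V e = 1 + ∑ n ∈ (Finset.Ioc e x).filter (fun n => T e ∣ T n),
    (T e : ℝ) / (T n : ℝ) * V n

end Pool.Agent.T2H24.MT
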