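import Pool.Agent.T2H24.MT.Defs

/-!
# Package FS : four squares
If `1+q`, `1+kq`, `1+κq`, `1+kκq` are all perfect squares (`k, κ ≥ 2`) then `q ≤ 2 (kκ)^2`.

PROOF.  `q ≥ 1` wlog.  `(AD)^2 - (BC)^2 = (k-1)(κ-1) q =: P q > 0`, so `Δ = AD - BC ≥ 1` and
`2 Δ BC = P q - Δ^2`.  Squaring, with `M = kκ`, `(BC)^2 = 1 + (k+κ) q + M q^2`:
`(P^2 - 4Δ^2 M) q^2 = Δ^2 (4(k+κ) + 2P) q + 4Δ^2 - Δ^4`.
Since `(BC)^2 > M q^2` and `0 < P q - Δ^2 < P q` we get `4 Δ^2 M < P^2`, so the coefficient on the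
left is `≥ 1` and `Δ^2 < M/4`; `4(k+κ)+2P = 2M+2(k+κ)+2 ≤ 5M`.  Hence `q^2 ≤ (5/4) M^2 q + M`.
-/
namespace Pool.Agent.T2H24.MT

theorem four_squares (k κ q A B C D : ℕ) (hk : 2 ≤ k) (hκ : 2 ≤ κ) (hA : A ^ 2 = 1 + q)
    (hB : B ^ 2 = 1 + k * q) (hC : C ^ 2 = 1 + κ * q) (hD : D ^ 2 = 1 + k * κ * q) :
    q ≤ 2 * (k * κ) ^ 2 := by
  rcases Nat.eq_zero_or_pos q with hq0 | hq
  · subst hq0; exact Nat.zero_le _
  -- integers
  have hk' : (2 : ℤ) ≤ k := by exact_mod_cast hk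
  have hκ' : (2 : ℤ) ≤ κ := by exact_mod_cast hκ
  have hq' : (1 : ℤ) ≤ q := by exact_mod_cast hq
  have hA' : (A : ℤ) ^ 2 = 1 + q := by exact_mod_cast hA
  have hB' : (B : ℤ) ^ 2 = 1 + k * q := by exact_mod_cast hB
  have hC' : (C : ℤ) ^ 2 = 1 + κ * q := by exact_mod_cast hC
  have hD' : (D : ℤ) ^ 2 = 1 + k * κ * q := by exact_mod_cast hD
  have hA0 : (0 : ℤ) ≤ A := Int.natCast_nonneg _
  have hB0 : (0 : ℤ) ≤ B := Int.natCast_nonneg _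
  have hC0 : (0 : ℤ) ≤ C := Int.natCast_nonneg _
  have hD0 : (0 : ℤ) ≤ D := Int.natCast_nonneg _
  generalize (A : ℤ) = a at *
  generalize (B : ℤ) = b at *
  generalize (C : ℤ) = c at *
  generalize (D : ℤ) = d at *
  suffices h : (q : ℤ) ≤ 2 * ((k : ℤ) * κ) ^ 2 by exact_mod_cast h
  generalize (k : ℤ) = k at *
  generalize (κ : ℤ) = κ at *
  generalize (q : ℤ) = q at *
  obtain ⟨M, hM⟩ : ∃ M, M = k * κ := ⟨_, rfl⟩
  obtain ⟨P, hP⟩ : ∃ P, P = (k - 1) * (κ - 1) := ⟨_, rfl⟩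
  obtain ⟨Y, hY⟩ : ∃ Y, Y = b * c := ⟨_, rfl⟩
  obtain ⟨Δ, hΔ⟩ : ∃ Δ, Δ = a * d - b * c := ⟨_, rfl⟩
  have hY0 : 0 ≤ Y := by rw [hY]; positivity
  have hM4 : 4 ≤ M := by rw [hM]; nlinarith
  have hP1 : 1 ≤ P := by rw [hP]; nlinarith
  have hPM : P = M - (k + κ) + 1 := by rw [hP, hM]; ring
  have hkκ : k + κ ≤ M := by rw [hM]; nlinarith
  have hPM' : P < M := by rw [hPM]; linarith
  have hY2 : Y ^ 2 = 1 + (k + κ) * q + M * q ^ 2 := by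
    rw [hY, mul_pow, hB', hC', hM]; ring
  have hX2 : (Y + Δ) ^ 2 = 1 + (1 + M) * q + M * q ^ 2 := by
    have : Y + Δ = a * d := by rw [hY, hΔ]; ring
    rw [this, mul_pow, hA', hD', hM]; ring
  have hPq : Δ * (2 * Y + Δ) = P * q := by
    have h1 : (Y + Δ) ^ 2 - Y ^ 2 = P * q := by rw [hX2, hY2, hPM]; ring
    linarith [h1, (by ring : (Y + Δ) ^ 2 - Y ^ 2 = Δ * (2 * Y + Δ))]
  have hq0 : (0 : ℤ) < q := by linarith
  have hkκ0 : (0 : ℤ) < k + κ := by linarith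
  have hM0 : (0 : ℤ) < M := by linarith
  have hP0 : (0 : ℤ) < P := by linarith
  have hYpos : 0 < Y := by
    rcases eq_or_lt_of_le hY0 with h0 | h0
    · exfalso
      have h1 : 0 < 1 + (k + κ) * q + M * q ^ 2 := by positivity
      rw [← hY2, ← h0] at h1
      norm_num at h1
    · exact h0
  have hXnn : 0 ≤ Y + Δ := by
    have : Y + Δ = a * d := by rw [hY, hΔ]; ring
    rw [this]; positivity
  have hPq1 : 1 ≤ P * q := by
    have : 0 < P * q := by positivity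
    omega
  have hΔ1 : 1 ≤ Δ := by
    by_contra hcon
    have h0 : Δ ≤ 0 := by omega
    have h1 : 0 ≤ 2 * Y + Δ := by linarith
    have h2 : Δ * (2 * Y + Δ) ≤ 0 := mul_nonpos_of_nonpos_of_nonneg h0 h1
    linarith
  have hlin : 2 * Δ * Y = P * q - Δ ^ 2 := by rw [← hPq]; ring
  have hΔ0 : 0 < Δ := by linarith
  -- squared relation
  have hsq : 4 * Δ ^ 2 * Y ^ 2 = (P * q - Δ ^ 2) ^ 2 := by rw [← hlin]; ring
  have hpos : 0 < P * q - Δ ^ 2 := by rw [← hlin]; positivity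
  have hlt : (P * q - Δ ^ 2) ^ 2 < (P * q) ^ 2 := by
    have h1 : P * q - Δ ^ 2 < P * q := by
      have : 0 < Δ ^ 2 := by positivity
      linarith
    exact pow_lt_pow_left₀ h1 hpos.le (by norm_num)
  have hkey : 4 * Δ ^ 2 * M < P ^ 2 := by
    have h1 : 4 * Δ ^ 2 * (M * q ^ 2) < 4 * Δ ^ 2 * Y ^ 2 := by
      have : M * q ^ 2 < Y ^ 2 := by
        rw [hY2]
        have : 0 < (k + κ) * q := by positivity
        linarith
      have h4 : 0 < 4 * Δ ^ 2 := by positivity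
      exact mul_lt_mul_of_pos_left this h4
    have h2 : (4 * Δ ^ 2 * M) * q ^ 2 < P ^ 2 * q ^ 2 := by
      calc (4 * Δ ^ 2 * M) * q ^ 2 = 4 * Δ ^ 2 * (M * q ^ 2) := by ring
        _ < 4 * Δ ^ 2 * Y ^ 2 := h1
        _ = (P * q - Δ ^ 2) ^ 2 := hsq
        _ < (P * q) ^ 2 := hlt
        _ = P ^ 2 * q ^ 2 := by ring
    exact lt_of_mul_lt_mul_right h2 (by positivity)
  have hkey1 : 1 ≤ P ^ 2 - 4 * Δ ^ 2 * M := by linarith
  have hΔM : 4 * Δ ^ 2 < M := by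
    have h1 : P ^ 2 < M ^ 2 := pow_lt_pow_left₀ hPM' hP0.le (by norm_num)
    have h2 : 4 * Δ ^ 2 * M < M * M := by
      calc 4 * Δ ^ 2 * M < P ^ 2 := hkey
        _ < M ^ 2 := h1
        _ = M * M := by ring
    exact lt_of_mul_lt_mul_right h2 (by linarith)
  have heq : (P ^ 2 - 4 * Δ ^ 2 * M) * q ^ 2 =
      Δ ^ 2 * (4 * (k + κ) + 2 * P) * q + 4 * Δ ^ 2 - Δ ^ 4 := by
    rw [hY2] at hsq
    linarith [hsq, (by ring : 4 * Δ ^ 2 * (1 + (k + κ) * q + M * q ^ 2) =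
      4 * Δ ^ 2 + 4 * Δ ^ 2 * (k + κ) * q + 4 * Δ ^ 2 * M * q ^ 2),
      (by ring : (P * q - Δ ^ 2) ^ 2 = P ^ 2 * q ^ 2 - 2 * P * Δ ^ 2 * q + Δ ^ 4)]
  have hcoef : 4 * (k + κ) + 2 * P ≤ 5 * M := by rw [hPM]; linarith
  have hΔ4 : 0 ≤ Δ ^ 4 := by positivity
  have hq2 : q ^ 2 ≤ Δ ^ 2 * (5 * M) * q + 4 * Δ ^ 2 := by
    have h1 : q ^ 2 ≤ (P ^ 2 - 4 * Δ ^ 2 * M) * q ^ 2 :=
      le_mul_of_one_le_left (by positivity) hkey1
    have h2 : Δ ^ 2 * (4 * (k + κ) + 2 * P) * q ≤ Δ ^ 2 * (5 * M) * q := by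
      have : Δ ^ 2 * (4 * (k + κ) + 2 * P) ≤ Δ ^ 2 * (5 * M) :=
        mul_le_mul_of_nonneg_left hcoef (by positivity)
      exact mul_le_mul_of_nonneg_right this (by linarith)
    linarith
  have hq3 : 4 * q ^ 2 ≤ (5 * M ^ 2) * q + 4 * M := by
    have h1 : 4 * Δ ^ 2 * (5 * M) * q ≤ M * (5 * M) * q := by
      have h5 : 4 * Δ ^ 2 * (5 * M) ≤ M * (5 * M) :=
        mul_le_mul_of_nonneg_right hΔM.le (by linarith)
      exact mul_le_mul_of_nonneg_right h5 (by linarith)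
    linarith [hq2, h1, hΔM, (by ring : 4 * (Δ ^ 2 * (5 * M) * q + 4 * Δ ^ 2) =
      4 * Δ ^ 2 * (5 * M) * q + 4 * (4 * Δ ^ 2)), (by ring : M * (5 * M) * q = (5 * M ^ 2) * q)]
  rw [← hM]
  by_contra hcon
  have h1 : 2 * M ^ 2 + 1 ≤ q := by omega
  have h2 : (2 * M ^ 2 + 1) * q ≤ q * q := mul_le_mul_of_nonneg_right h1 hq0.le
  have h3 : M ≤ M ^ 2 * q := by
    have h4 : (1 : ℤ) ≤ M * q := by
      have : 0 < M * q := by positivity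
      omega
    calc M = M * 1 := by ring
      _ ≤ M * (M * q) := mul_le_mul_of_nonneg_left h4 hM0.le
      _ = M ^ 2 * q := by ring
  clear hA' hB' hC' hD' hkey hkey1 heq hsq hlt hlin hX2 hY2 hPq hq2 hΔM
  nlinarith [h2, h3, hq3, mul_pos (mul_pos hM0 hM0) hq0]

end Pool.Agent.T2H24.MT
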