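import Pool.Agent.T2H24.MT.Defs

/-!
# Package TS : tail sum

PROOF.  `F n = (log n)^13`.  For `m` large (`log (m-1) ≥ 52`), `log m ≤ log (m-1) + 1/(m-1)`, so
`F m / F (m-1) ≤ (1 + 1/((m-1) log (m-1)))^13 ≤ exp (13/((m-1) log (m-1))) ≤ exp (1/(4(m-1)))
≤ 1/(1 - 1/(4(m-1))) ≤ 1/(1 - 1/(2m))`.  Hence `F (m-1)/(m-1) - F m / m ≥ F m/(4 T m)`
(because `(m-1)/m * (1 + 1/(2(m+1))) ≤ 1 - 1/(2m)`), and `tail_sum` follows by telescoping; also
`F m / T m` is antitone there (`g_antitone`).
-/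
namespace Pool.Agent.T2H24.MT

open Real

theorem ts_ratio (x : ℝ) (hx : 1 ≤ x) (hl : 52 ≤ log x) :
    (log (x + 1)) ^ 13 * (4 * x - 1) ≤ 4 * x * (log x) ^ 13 := by
  have hx0 : 0 < x := by linarith
  have h1 : log (x + 1) ≤ log x * exp (1 / (52 * x)) := by
    have h0 : log (x + 1) = log x + log (1 + 1 / x) := by
      rw [← log_mul (by positivity) (by positivity)]
      congr 1
      field_simp
    have h2 : log (1 + 1 / x) ≤ 1 / x := by
      have := log_le_sub_one_of_pos (show 0 < 1 + 1 / x by positivity)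
      linarith
    have h3 : 1 + 1 / (52 * x) ≤ exp (1 / (52 * x)) := by
      have := add_one_le_exp (1 / (52 * x))
      linarith
    have h4 : 1 / x ≤ log x * (1 / (52 * x)) := by
      rw [show 1 / x = 52 * (1 / (52 * x)) by field_simp]
      gcongr
    nlinarith
  have h5 : (log (x + 1)) ^ 13 ≤ (log x) ^ 13 * exp (1 / (4 * x)) := by
    calc (log (x + 1)) ^ 13 ≤ (log x * exp (1 / (52 * x))) ^ 13 :=
          pow_le_pow_left₀ (log_nonneg (by linarith)) h1 13
      _ = (log x) ^ 13 * exp (1 / (4 * x)) := by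
          rw [mul_pow, ← exp_nat_mul]
          congr 2
          push_cast
          field_simp
          norm_num
  have h6 : exp (1 / (4 * x)) * (4 * x - 1) ≤ 4 * x := by
    have h0 := add_one_le_exp (-(1 / (4 * x)))
    have h7 : exp (1 / (4 * x)) * exp (-(1 / (4 * x))) = 1 := by rw [← exp_add]; simp
    have h8 : (4 * x - 1) = 4 * x * (1 - 1 / (4 * x)) := by field_simp
    rw [h8]
    calc exp (1 / (4 * x)) * (4 * x * (1 - 1 / (4 * x)))
        ≤ exp (1 / (4 * x)) * (4 * x * exp (-(1 / (4 * x)))) := by gcongr; linarith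
      _ = 4 * x * (exp (1 / (4 * x)) * exp (-(1 / (4 * x)))) := by ring
      _ = 4 * x := by rw [h7, mul_one]
  have hlog : 0 ≤ log x := by linarith
  calc (log (x + 1)) ^ 13 * (4 * x - 1)
      ≤ (log x) ^ 13 * exp (1 / (4 * x)) * (4 * x - 1) := by gcongr; linarith
    _ = (log x) ^ 13 * (exp (1 / (4 * x)) * (4 * x - 1)) := by ring
    _ ≤ (log x) ^ 13 * (4 * x) := by gcongr
    _ = 4 * x * (log x) ^ 13 := by ring

theorem ts_T (m : ℕ) : (T m : ℝ) = (m : ℝ) * (m + 1) / 2 := by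
  have h := two_T m
  have h' : (2 : ℝ) * T m = m * (m + 1) := by exact_mod_cast h
  linarith

theorem tail_sum : ∃ M : ℕ, 2 ≤ M ∧
    (∀ m₀ x : ℕ, M ≤ m₀ → ∑ m ∈ Finset.Icc m₀ x, (log (m : ℝ)) ^ 13 / (T m : ℝ) ≤
      4 * (log ((m₀ - 1 : ℕ) : ℝ)) ^ 13 / ((m₀ - 1 : ℕ) : ℝ)) ∧
    (∀ m n : ℕ, M ≤ m → m ≤ n → (log (n : ℝ)) ^ 13 / (T n : ℝ) ≤ (log (m : ℝ)) ^ 13 / (T m : ℝ)) := by
  refine ⟨⌈exp 52⌉₊ + 2, by omega, ?_, ?_⟩
  · intro m₀ x hm₀
    have key : ∀ m : ℕ, ⌈exp 52⌉₊ + 1 ≤ m →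
        (log ((m + 1 : ℕ) : ℝ)) ^ 13 / (T (m + 1) : ℝ) ≤
          4 * ((log (m : ℝ)) ^ 13 / (m : ℝ)) -
            4 * ((log ((m + 1 : ℕ) : ℝ)) ^ 13 / ((m + 1 : ℕ) : ℝ)) := by
      intro m hm
      have hm1 : exp 52 ≤ (m : ℝ) := (Nat.le_ceil _).trans (by exact_mod_cast (by omega))
      have hm0 : (0 : ℝ) < m := (exp_pos _).trans_le hm1
      have hm2 : (1 : ℝ) ≤ m := by exact_mod_cast (by omega : 1 ≤ m)
      have hl : 52 ≤ log (m : ℝ) := (le_log_iff_exp_le hm0).2 hm1
      have hr := ts_ratio m hm2 hl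
      rw [ts_T]
      push_cast
      set A := (log ((m : ℝ) + 1)) ^ 13
      set B := (log (m : ℝ)) ^ 13
      set y : ℝ := (m : ℝ)
      have hA : 0 ≤ A := by
        have : 0 ≤ log (y + 1) := log_nonneg (by linarith)
        positivity
      have h4 : 0 < 4 * y - 1 := by linarith
      have hB : A * (4 * y - 1) / (4 * y) ≤ B := by
        rw [div_le_iff₀ (by positivity)]
        linarith
      have h5 : A / ((y + 1) * (y + 1 + 1) / 2) + 4 * (A / (y + 1)) ≤
          4 * (A * (4 * y - 1) / (4 * y) / y) := by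
        rw [← sub_nonneg]
        have : 4 * (A * (4 * y - 1) / (4 * y) / y) -
            (A / ((y + 1) * (y + 1 + 1) / 2) + 4 * (A / (y + 1))) =
            A * ((4 * y - 1) * (y + 1) * (y + 2) - 2 * y ^ 2 - 4 * y ^ 2 * (y + 2)) /
              (y ^ 2 * (y + 1) * (y + 2)) := by
          field_simp
          ring
        rw [this]
        refine div_nonneg (mul_nonneg hA ?_) (by positivity)
        nlinarith
      have h6 : 4 * (A * (4 * y - 1) / (4 * y) / y) ≤ 4 * (B / y) := by gcongr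
      linarith
    have hind : ∀ x : ℕ, m₀ - 1 ≤ x → ∑ m ∈ Finset.Icc m₀ x, (log (m : ℝ)) ^ 13 / (T m : ℝ) ≤
        4 * ((log ((m₀ - 1 : ℕ) : ℝ)) ^ 13 / ((m₀ - 1 : ℕ) : ℝ)) -
          4 * ((log (x : ℝ)) ^ 13 / (x : ℝ)) := by
      intro x hx
      induction x, hx using Nat.le_induction with
      | base =>
        rw [Finset.Icc_eq_empty (by omega), Finset.sum_empty, sub_self]
      | succ x hx ih =>
        rw [Finset.sum_Icc_succ_top (by omega)]
        have := key x (by omega)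
        linarith
    rcases lt_or_ge x (m₀ - 1) with hx | hx
    · rw [Finset.Icc_eq_empty (by omega), Finset.sum_empty]
      have : 0 ≤ log ((m₀ - 1 : ℕ) : ℝ) := log_natCast_nonneg _
      positivity
    · have h1 := hind x hx
      have h2 : 0 ≤ 4 * ((log (x : ℝ)) ^ 13 / (x : ℝ)) := by
        have : 0 ≤ log (x : ℝ) := log_natCast_nonneg _
        positivity
      rw [mul_div_assoc]
      linarith
  · intro m n hm hmn
    induction n, hmn using Nat.le_induction with
    | base => exact le_rfl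
    | succ n hn ih =>
      refine le_trans ?_ ih
      have hm1 : exp 52 ≤ (n : ℝ) := (Nat.le_ceil _).trans (by exact_mod_cast (by omega))
      have hm0 : (0 : ℝ) < n := (exp_pos _).trans_le hm1
      have hm2 : (1 : ℝ) ≤ n := by exact_mod_cast (by omega : 1 ≤ n)
      have hl : 52 ≤ log (n : ℝ) := (le_log_iff_exp_le hm0).2 hm1
      have hr := ts_ratio n hm2 hl
      rw [ts_T, ts_T]
      push_cast
      set A := (log ((n : ℝ) + 1)) ^ 13
      set B := (log (n : ℝ)) ^ 13
      set y : ℝ := (n : ℝ)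
      have hA : 0 ≤ A := by
        have : 0 ≤ log (y + 1) := log_nonneg (by linarith)
        positivity
      have h4 : 0 < 4 * y - 1 := by linarith
      have hB : A * (4 * y - 1) / (4 * y) ≤ B := by
        rw [div_le_iff₀ (by positivity)]
        linarith
      have h5 : A / ((y + 1) * (y + 1 + 1) / 2) ≤
          A * (4 * y - 1) / (4 * y) / (y * (y + 1) / 2) := by
        rw [← sub_nonneg]
        have : A * (4 * y - 1) / (4 * y) / (y * (y + 1) / 2) - A / ((y + 1) * (y + 1 + 1) / 2) =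
            A * ((4 * y - 1) * (y + 2) - 4 * y ^ 2) / (2 * y ^ 2 * (y + 1) * (y + 2)) := by
          field_simp
          ring
        rw [this]
        refine div_nonneg (mul_nonneg hA ?_) (by positivity)
        nlinarith
      have h6 : A * (4 * y - 1) / (4 * y) / (y * (y + 1) / 2) ≤ B / (y * (y + 1) / 2) := by gcongr
      linarith

end Pool.Agent.T2H24.MT
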