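import Pool.Agent.T2H24.MT.VD
import Pool.Agent.T2H24.MT.TS

/-!
# Package LB : the large steps have small total weight (may use the sorries of VD and TS)

PROOF.  `F n = (log n)^13`, `g n = F n / T n`, antitone for `n ≥ M` (`tail_sum`).
Let `S` be the set of the sum.  `n ∈ S` gives `n (n+1) > s^2 h (h+1)`, so `n ≥ s h`.  Put
`w = h/4` (natural division).  For `n ∈ S`, `g n ≤ (1/(w+1)) ∑_{m ∈ [n-w, n]} g m`; summing over
`n ∈ S` and interchanging (`count_window`: each `m` is used by at most `Λ = 2 Nat.log 4 h + 1`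
elements `n` of `S`, as `m ≤ n ≤ m + w`)
`∑_{n ∈ S} g n ≤ Λ/(w+1) ∑_{m ≥ s h - w} g m ≤ (4Λ/h) * 4 F (s h)/(s h/2)`.
Since `T h ≤ h^2`, the sum in question is `≤ 32 Λ F(s h)/s ≤ 32 (4 log e) (3 log e)^13 / (log e)^15`
which is `≤ 1` for large `e` (`s h ≤ e^3`, `Λ ≤ 2 (log (e^2))/(log 4) + 1 ≤ 4 log e`,
`log e ≥ 128 * 3^13`).
-/
namespace Pool.Agent.T2H24.MT

open Real

/-- double counting -/
theorem lb_double (g : ℕ → ℝ) (hg : ∀ n, 0 ≤ g n) (S : Finset ℕ) (w a x Λ : ℕ)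
    (hmem : ∀ n ∈ S, a + w ≤ n ∧ n ≤ x)
    (hanti : ∀ m n : ℕ, a ≤ m → m ≤ n → g n ≤ g m)
    (hcount : ∀ m : ℕ, (S.filter (fun n => m ≤ n ∧ n ≤ m + w)).card ≤ Λ) :
    ((w : ℝ) + 1) * ∑ n ∈ S, g n ≤ (Λ : ℝ) * ∑ m ∈ Finset.Icc a x, g m := by
  have h1 : ∀ n ∈ S, ((w : ℝ) + 1) * g n ≤
      ∑ m ∈ Finset.Icc a x, if m ≤ n ∧ n ≤ m + w then g m else 0 := by
    intro n hn
    obtain ⟨h2, h3⟩ := hmem n hn
    have h4 : Finset.Icc (n - w) n ⊆ Finset.Icc a x := by
      intro m hm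
      rw [Finset.mem_Icc] at hm ⊢
      omega
    have h5 : ∑ m ∈ Finset.Icc (n - w) n, g m ≤
        ∑ m ∈ Finset.Icc a x, if m ≤ n ∧ n ≤ m + w then g m else 0 := by
      refine le_trans (le_of_eq ?_) (Finset.sum_le_sum_of_subset_of_nonneg h4 ?_)
      · refine Finset.sum_congr rfl fun m hm => ?_
        rw [Finset.mem_Icc] at hm
        rw [if_pos (by omega)]
      · intro m _ _
        split_ifs
        · exact hg m
        · exact le_rfl
    refine le_trans ?_ h5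
    have h6 : ∑ m ∈ Finset.Icc (n - w) n, g n ≤ ∑ m ∈ Finset.Icc (n - w) n, g m := by
      refine Finset.sum_le_sum fun m hm => ?_
      rw [Finset.mem_Icc] at hm
      exact hanti m n (by omega) hm.2
    rw [Finset.sum_const, Nat.card_Icc, nsmul_eq_mul] at h6
    have h7 : n + 1 - (n - w) = w + 1 := by omega
    rw [h7] at h6
    push_cast at h6
    exact h6
  rw [Finset.mul_sum]
  refine (Finset.sum_le_sum h1).trans ?_
  rw [Finset.sum_comm, Finset.mul_sum]
  refine Finset.sum_le_sum fun m _ => ?_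
  rw [← Finset.sum_filter, Finset.sum_const, nsmul_eq_mul]
  exact mul_le_mul_of_nonneg_right (by exact_mod_cast hcount m) (hg m)

theorem lb_T_le (h : ℕ) (hh : 1 ≤ h) : (T h : ℝ) ≤ (h : ℝ) ^ 2 := by
  rw [ts_T]
  have : (1 : ℝ) ≤ h := by exact_mod_cast hh
  nlinarith

theorem lb_log (h : ℕ) (hh : 1 ≤ h) : ((Nat.log 4 h : ℕ) : ℝ) ≤ log (h : ℝ) := by
  have h1 : 4 ^ Nat.log 4 h ≤ h := Nat.pow_log_le_self 4 (by omega)
  have h2 : (4 : ℝ) ^ Nat.log 4 h ≤ (h : ℝ) := by exact_mod_cast h1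
  have h3 := Real.log_le_log (by positivity) h2
  rw [Real.log_pow] at h3
  have h4 : (1 : ℝ) ≤ log 4 := by
    rw [Real.le_log_iff_exp_le (by norm_num)]
    have := Real.exp_one_lt_d9
    linarith
  have h5 : (0 : ℝ) ≤ (Nat.log 4 h : ℕ) := Nat.cast_nonneg _
  nlinarith

theorem large_part : ∃ e₀ : ℕ, ∀ e : ℕ, e₀ ≤ e → ∀ s : ℕ, (log (e : ℝ)) ^ 15 ≤ (s : ℝ) → s ≤ e →
    ∀ h : ℕ, e ≤ h → h ≤ e ^ 2 → ∀ x : ℕ,
      ∑ n ∈ (Finset.Ioc h x).filter (fun n => T h ∣ T n ∧ s ^ 2 * T h < T n),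
        (T h : ℝ) / (T n : ℝ) * (log (n : ℝ)) ^ 13 ≤ 1 := by
  obtain ⟨M, hM2, hM1, hM3⟩ := tail_sum
  refine ⟨max (max M 8) ⌈exp (160 * 3 ^ 13)⌉₊, fun e he s hs1 hs2 h hh1 hh2 x => ?_⟩
  have heM : M ≤ e := le_trans (le_trans (le_max_left _ _) (le_max_left _ _)) he
  have he8 : 8 ≤ e := le_trans (le_trans (le_max_right _ _) (le_max_left _ _)) he
  have heE : exp (160 * 3 ^ 13) ≤ (e : ℝ) :=
    (Nat.le_ceil _).trans (by exact_mod_cast le_trans (le_max_right _ _) he)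
  have he0 : (0 : ℝ) < e := (exp_pos _).trans_le heE
  set L := log (e : ℝ) with hL
  have hLbig : 160 * 3 ^ 13 ≤ L := by
    rw [hL, le_log_iff_exp_le he0]
    exact heE
  have hL5 : 5 ≤ L := by
    norm_num at hLbig ⊢
    linarith
  have hL1 : 1 ≤ L := by linarith
  have hs5 : (5 : ℝ) ≤ s := by
    have : L ≤ L ^ 15 := le_self_pow₀ hL1 (by norm_num)
    linarith
  have hs5' : 5 ≤ s := by exact_mod_cast hs5
  set S := (Finset.Ioc h x).filter (fun n => T h ∣ T n ∧ s ^ 2 * T h < T n) with hS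
  set g : ℕ → ℝ := fun n => (log (n : ℝ)) ^ 13 / (T n : ℝ) with hg
  have hg0 : ∀ n, 0 ≤ g n := fun n => by
    have : 0 ≤ log (n : ℝ) := log_natCast_nonneg _
    positivity
  set w := h / 4 with hw
  have hsh : 5 * h ≤ s * h := Nat.mul_le_mul_right _ hs5'
  have hnS : ∀ n ∈ S, s * h ≤ n := by
    intro n hn
    rw [hS, Finset.mem_filter] at hn
    by_contra hlt
    push Not at hlt
    have h1 := hn.2.2
    have h2 := two_T n
    have h3 := two_T h
    have h4 : n * (n + 1) ≤ n * (s * h) := Nat.mul_le_mul_left _ (by omega)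
    have h5 : n * (s * h) ≤ (s * h) * (s * h) := Nat.mul_le_mul_right _ (by omega)
    have h6 : s ^ 2 * (h * (h + 1)) < n * (n + 1) := by
      rw [← h2, ← h3]
      nlinarith
    nlinarith
  have hd := lb_double g hg0 S w (s * h - w) x (2 * Nat.log 4 h + 1) ?_ ?_ ?_
  · have hm0 : M ≤ s * h - w := by omega
    have ht := hM1 (s * h - w) x hm0
    set b := s * h - w - 1 with hb
    have hbpos : 0 < b := by omega
    have hb2 : s * h ≤ 2 * b := by omega
    have hb3 : b ≤ s * h := by omega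
    have hhpos : (0 : ℝ) < h := by exact_mod_cast (by omega : 0 < h)
    have hhe : (h : ℝ) ≤ (e : ℝ) ^ 2 := by exact_mod_cast hh2
    have hlogh : log (h : ℝ) ≤ 2 * L := by
      have := Real.log_le_log hhpos hhe
      rw [Real.log_pow] at this
      push_cast at this
      linarith
    have hlogb : log (b : ℝ) ≤ 3 * L := by
      have h1 : (b : ℝ) ≤ (e : ℝ) ^ 3 := by
        have : b ≤ e ^ 3 := by
          calc b ≤ s * h := hb3
            _ ≤ e * e ^ 2 := Nat.mul_le_mul hs2 hh2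
            _ = e ^ 3 := by ring
        exact_mod_cast this
      have := Real.log_le_log (by exact_mod_cast hbpos) h1
      rw [Real.log_pow] at this
      push_cast at this
      linarith
    have hlogb0 : 0 ≤ log (b : ℝ) := log_natCast_nonneg _
    have hΛ : ((2 * Nat.log 4 h + 1 : ℕ) : ℝ) ≤ 5 * L := by
      have := lb_log h (by omega)
      push_cast
      linarith
    have hsum : ∑ m ∈ Finset.Icc (s * h - w) x, g m ≤ 4 * (3 * L) ^ 13 / ((s : ℝ) * h / 2) := by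
      refine ht.trans ?_
      have hb4 : (s : ℝ) * h / 2 ≤ (b : ℝ) := by
        have : (s : ℝ) * h ≤ 2 * b := by exact_mod_cast hb2
        linarith
      have hsp : (0 : ℝ) < (s : ℝ) * h / 2 := by positivity
      gcongr
    have hw4 : (h : ℝ) / 4 ≤ (w : ℝ) + 1 := by
      have : h ≤ 4 * (w + 1) := by omega
      have : (h : ℝ) ≤ 4 * (w + 1) := by exact_mod_cast this
      linarith
    have hsg : ∑ n ∈ S, g n ≤ (5 * L) * (4 * (3 * L) ^ 13 / ((s : ℝ) * h / 2)) / (h / 4) := by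
      rw [le_div_iff₀ (by positivity)]
      calc (∑ n ∈ S, g n) * ((h : ℝ) / 4) ≤ (∑ n ∈ S, g n) * ((w : ℝ) + 1) :=
            mul_le_mul_of_nonneg_left hw4 (Finset.sum_nonneg fun n _ => hg0 n)
        _ = ((w : ℝ) + 1) * ∑ n ∈ S, g n := by ring
        _ ≤ ((2 * Nat.log 4 h + 1 : ℕ) : ℝ) * ∑ m ∈ Finset.Icc (s * h - w) x, g m := hd
        _ ≤ (5 * L) * (4 * (3 * L) ^ 13 / ((s : ℝ) * h / 2)) := by
            refine mul_le_mul hΛ hsum (Finset.sum_nonneg fun n _ => hg0 n) (by positivity)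
    calc ∑ n ∈ S, (T h : ℝ) / (T n : ℝ) * (log (n : ℝ)) ^ 13 = (T h : ℝ) * ∑ n ∈ S, g n := by
          rw [Finset.mul_sum]
          refine Finset.sum_congr rfl fun n _ => ?_
          simp only [hg]
          ring
      _ ≤ (h : ℝ) ^ 2 * ((5 * L) * (4 * (3 * L) ^ 13 / ((s : ℝ) * h / 2)) / (h / 4)) := by
          refine mul_le_mul (lb_T_le h (by omega)) hsg (Finset.sum_nonneg fun n _ => hg0 n)
            (by positivity)
      _ = 160 * 3 ^ 13 * L ^ 14 / s := by
          have hs0 : (s : ℝ) ≠ 0 := by positivity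
          field_simp
          ring
      _ ≤ 1 := by
          rw [div_le_one (by positivity)]
          calc 160 * 3 ^ 13 * L ^ 14 ≤ L * L ^ 14 := by gcongr
            _ = L ^ 15 := by ring
            _ ≤ s := hs1
  · intro n hn
    have h1 := hnS n hn
    rw [hS, Finset.mem_filter, Finset.mem_Ioc] at hn
    omega
  · intro m n hm hmn
    exact hM3 m n (by omega) hmn
  · intro m
    refine count_window h (by omega) m _ ?_
    intro n hn
    rw [Finset.mem_filter] at hn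
    refine ⟨hn.2.1, hn.2.2, ?_⟩
    have h3 := hn.1
    rw [hS, Finset.mem_filter] at h3
    exact h3.2.1

end Pool.Agent.T2H24.MT
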