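import Pool.Agent.T2H24.MT.FS

/-!
# Package MI : the induction along a run of small steps
-/
namespace Pool.Agent.T2H24.MT

open Real

/-- budget of the labels in `[2, L]` not yet used -/
noncomputable def bud (L : ℕ) (U : Finset ℕ) : ℝ := ∑ k ∈ Finset.Icc 2 L \ U, (1 : ℝ) / k

theorem bud_nonneg (L : ℕ) (U : Finset ℕ) : 0 ≤ bud L U :=
  Finset.sum_nonneg fun k _ => by positivity

/-- the small steps from `h` -/
def Sm (x L h : ℕ) : Finset ℕ :=
  (Finset.Ioc h x).filter (fun n => T h ∣ T n ∧ T n ≤ L * T h)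

/-- the labels at `h` -/
def Lab (x L h : ℕ) : Finset ℕ := (Sm x L h).image (fun n => T n / T h)

noncomputable def theta (x L h : ℕ) : ℝ := ∑ n ∈ Sm x L h, (T h : ℝ) / (T n : ℝ)

theorem mem_Sm {x L h n : ℕ} : n ∈ Sm x L h ↔ (h < n ∧ n ≤ x) ∧ T h ∣ T n ∧ T n ≤ L * T h := by
  simp [Sm, Finset.mem_filter, Finset.mem_Ioc]

theorem mem_Lab {x L h k : ℕ} (hh : 1 ≤ h) (hk : k ∈ Lab x L h) :
    2 ≤ k ∧ k ≤ L ∧ ∃ n, T n = k * T h := by
  obtain ⟨n, hn, rfl⟩ := Finset.mem_image.mp hk
  obtain ⟨⟨h1, h2⟩, ⟨c, hc⟩, h4⟩ := mem_Sm.mp hn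
  have hT : 0 < T h := T_pos hh
  have hdiv : T n / T h = c := by rw [hc]; exact Nat.mul_div_cancel_left c hT
  rw [hdiv]
  have hlt : T h < T n := T_strictMono h1
  refine ⟨?_, ?_, n, by rw [hc]; ring⟩
  · by_contra hcon
    have : c ≤ 1 := by omega
    have : T h * c ≤ T h * 1 := Nat.mul_le_mul_left _ this
    omega
  · rw [hc, mul_comm] at h4
    exact Nat.le_of_mul_le_mul_right h4 hT

theorem sum_Lab {x L h : ℕ} (hh : 1 ≤ h) : ∑ k ∈ Lab x L h, (1 : ℝ) / k = theta x L h := by
  have hT : 0 < T h := T_pos hh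
  unfold Lab theta
  rw [Finset.sum_image]
  · refine Finset.sum_congr rfl fun n hn => ?_
    obtain ⟨⟨h1, h2⟩, ⟨c, hc⟩, h4⟩ := mem_Sm.mp hn
    have hdiv : T n / T h = c := by rw [hc]; exact Nat.mul_div_cancel_left c hT
    rw [hdiv, hc]
    have hcpos : 0 < c := by
      rcases Nat.eq_zero_or_pos c with h0 | h0
      · exfalso
        have hlt : T h < T n := T_strictMono h1
        rw [hc, h0] at hlt
        omega
      · exact h0
    have h1' : (T h : ℝ) ≠ 0 := by exact_mod_cast hT.ne'
    have h2' : (c : ℝ) ≠ 0 := by exact_mod_cast hcpos.ne'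
    push_cast
    field_simp
  · intro n hn m hm hnm
    obtain ⟨_, ⟨c, hc⟩, _⟩ := mem_Sm.mp hn
    obtain ⟨_, ⟨d, hd⟩, _⟩ := mem_Sm.mp hm
    simp only [hc, hd, Nat.mul_div_cancel_left _ hT] at hnm
    apply T_strictMono.injective
    rw [hc, hd, hnm]

theorem bud_union {x L h : ℕ} {U : Finset ℕ} (hh : 1 ≤ h) (hdis : Disjoint (Lab x L h) U) :
    bud L (U ∪ Lab x L h) = bud L U - theta x L h := by
  unfold bud
  rw [← sum_Lab hh]
  have hsub : Lab x L h ⊆ Finset.Icc 2 L \ U := by
    intro k hk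
    obtain ⟨h1, h2, _⟩ := mem_Lab hh hk
    rw [Finset.mem_sdiff, Finset.mem_Icc]
    exact ⟨⟨h1, h2⟩, fun hU => (Finset.disjoint_left.mp hdis hk) hU⟩
  have h3 : Finset.Icc 2 L \ (U ∪ Lab x L h) = (Finset.Icc 2 L \ U) \ Lab x L h := by
    rw [Finset.sdiff_union_distrib]
    ext k
    simp only [Finset.mem_inter, Finset.mem_sdiff]
    tauto
  rw [h3, ← Finset.sum_sdiff hsub]
  ring

theorem theta_nonneg (x L h : ℕ) : 0 ≤ theta x L h :=
  Finset.sum_nonneg fun n _ => by positivity

/-- `θ exp(-0.4 θ) ≤ 0.92`. -/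
theorem tilt (t : ℝ) : t * exp (-(0.4 * t)) ≤ 0.92 := by
  have h1 : 0.4 * t ≤ exp (0.4 * t - 1) := by
    have := Real.add_one_le_exp (0.4 * t - 1)
    linarith
  have h2 : exp (0.4 * t - 1) = exp (0.4 * t) * exp (-1) := by
    rw [← Real.exp_add]; ring_nf
  have h3 : exp (-1 : ℝ) ≤ 0.368 := by
    rw [Real.exp_neg]
    have := Real.exp_one_gt_d9
    rw [inv_le_comm₀ (Real.exp_pos 1) (by norm_num)]
    norm_num
    linarith
  have h4 : exp (0.4 * t) * exp (-(0.4 * t)) = 1 := by
    rw [← Real.exp_add]; simp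
  have hp := Real.exp_pos (0.4 * t)
  have hp' := Real.exp_pos (-(0.4 * t))
  have h5 : 0.4 * t ≤ exp (0.4 * t) * 0.368 := by
    rw [h2] at h1
    nlinarith
  have h6 : 0.4 * t * exp (-(0.4 * t)) ≤ exp (0.4 * t) * 0.368 * exp (-(0.4 * t)) :=
    mul_le_mul_of_nonneg_right h5 hp'.le
  have h7 : exp (0.4 * t) * 0.368 * exp (-(0.4 * t)) = 0.368 := by
    calc exp (0.4 * t) * 0.368 * exp (-(0.4 * t))
        = 0.368 * (exp (0.4 * t) * exp (-(0.4 * t))) := by ring
      _ = 0.368 := by rw [h4]; ring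
  rw [h7] at h6
  nlinarith

/-- One block: if `V n ≤ (log n)^13` for all `n > e`, the large steps from every `h ∈ [e, e^2]` have
weight at most 1 and `(s^2)^(m₀+1) ≤ e`, then `V e` is bounded as stated. -/
theorem block (x : ℕ) (V : ℕ → ℝ) (hV : IsV x V) (e s m₀ : ℕ) (he : 16 ≤ e) (hs : 2 ≤ s)
    (hm : 1 ≤ m₀) (hrange : (s ^ 2) ^ (m₀ + 1) ≤ e)
    (hIH : ∀ n : ℕ, e < n → V n ≤ (log (n : ℝ)) ^ 13)
    (hlarge : ∀ h : ℕ, e ≤ h → h ≤ e ^ 2 →
      ∑ n ∈ (Finset.Ioc h x).filter (fun n => T h ∣ T n ∧ s ^ 2 * T h < T n),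
        (T h : ℝ) / (T n : ℝ) * (log (n : ℝ)) ^ 13 ≤ 1) :
    V e ≤ (25 + (0.92 : ℝ) ^ m₀ * (log ((e : ℝ) ^ 2)) ^ 13) * exp (0.4 * log ((s : ℝ) ^ 2)) := by
  set L := s ^ 2 with hL
  have hL4 : 4 ≤ L := by rw [hL]; nlinarith
  set Fm : ℝ := (log ((e : ℝ) ^ 2)) ^ 13 with hFm
  have he1 : (1 : ℝ) ≤ (e : ℝ) := by exact_mod_cast (by omega : 1 ≤ e)
  have hlogpos : 0 ≤ log ((e : ℝ) ^ 2) := Real.log_nonneg (by nlinarith)
  have hFm0 : 0 ≤ Fm := by rw [hFm]; positivity
  have hTe : 0 < T e := T_pos (by omega)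
  have inner : ∀ r : ℕ, r ≤ m₀ → ∀ h : ℕ, e ≤ h → T h ≤ L ^ (m₀ - r) * T e → (r = 0 → e < h) →
      ∀ U : Finset ℕ,
      (∀ h' : ℕ, h ≤ h' → T h ∣ T h' → T h' ≤ L ^ r * T h → ∀ k ∈ U, ¬ ∃ n, T n = k * T h') →
      V h ≤ (25 + (0.92 : ℝ) ^ r * Fm) * exp (0.4 * bud L U) := by
    intro r
    induction r with
    | zero =>
      intro _ h heh hTh hr0 U _
      have h1 : V h ≤ (log (h : ℝ)) ^ 13 := hIH h (hr0 rfl)
      have hle : h ≤ e ^ 2 := by
        by_contra hcon
        have hgt : e ^ 2 + 1 ≤ h := by omega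
        have h2 : L ^ (m₀ - 0) * T e ≤ e * T e := by
          refine Nat.mul_le_mul_right _ (le_trans (Nat.pow_le_pow_right (by omega) ?_) hrange)
          omega
        have h3 := two_T e
        have h4 := two_T h
        have h5 : 2 * T h ≤ e * (e * (e + 1)) := by
          calc 2 * T h ≤ 2 * (e * T e) := Nat.mul_le_mul_left _ (le_trans hTh h2)
            _ = e * (2 * T e) := by ring
            _ = e * (e * (e + 1)) := by rw [h3]
        rw [h4] at h5
        have h6 : (e ^ 2 + 1) * (e ^ 2 + 2) ≤ h * (h + 1) := Nat.mul_le_mul hgt (by omega)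
        nlinarith
      have h2 : (log (h : ℝ)) ^ 13 ≤ Fm := by
        rw [hFm]
        have hh1 : (1 : ℝ) ≤ (h : ℝ) := by exact_mod_cast (by omega : 1 ≤ h)
        refine pow_le_pow_left₀ (Real.log_nonneg hh1) ?_ 13
        refine Real.log_le_log (by linarith) ?_
        exact_mod_cast hle
      have h3 : (1 : ℝ) ≤ exp (0.4 * bud L U) := by
        rw [← Real.exp_zero]
        exact Real.exp_le_exp.mpr (by have := bud_nonneg L U; positivity)
      calc V h ≤ Fm := le_trans h1 h2
        _ ≤ 25 + (0.92 : ℝ) ^ 0 * Fm := by simp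
        _ ≤ (25 + (0.92 : ℝ) ^ 0 * Fm) * exp (0.4 * bud L U) :=
          le_mul_of_one_le_right (by positivity) h3
    | succ r ih =>
      intro hr h heh hTh _ U hInv
      have hh1 : 1 ≤ h := by omega
      have hTh0 : 0 < T h := T_pos hh1
      -- `h ≤ e^2`
      have hle : h ≤ e ^ 2 := by
        by_contra hcon
        have hgt : e ^ 2 + 1 ≤ h := by omega
        have h2 : L ^ (m₀ - (r + 1)) * T e ≤ e * T e := by
          refine Nat.mul_le_mul_right _ (le_trans (Nat.pow_le_pow_right (by omega) ?_) hrange)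
          omega
        have h3 := two_T e
        have h4 := two_T h
        have h5 : 2 * T h ≤ e * (e * (e + 1)) := by
          calc 2 * T h ≤ 2 * (e * T e) := Nat.mul_le_mul_left _ (le_trans hTh h2)
            _ = e * (2 * T e) := by ring
            _ = e * (e * (e + 1)) := by rw [h3]
        rw [h4] at h5
        have h6 : (e ^ 2 + 1) * (e ^ 2 + 2) ≤ h * (h + 1) := Nat.mul_le_mul hgt (by omega)
        nlinarith
      -- labels at `h` are not in `U`
      have hdis : Disjoint (Lab x L h) U := by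
        rw [Finset.disjoint_left]
        intro k hk hU
        obtain ⟨_, _, n, hn⟩ := mem_Lab hh1 hk
        refine hInv h le_rfl dvd_rfl ?_ k hU ⟨n, hn⟩
        exact Nat.le_mul_of_pos_left _ (Nat.pow_pos (by omega))
      have hbud := bud_union hh1 hdis
      -- bound for the children
      have hchild : ∀ n ∈ Sm x L h, V n ≤
          (25 + (0.92 : ℝ) ^ r * Fm) * exp (0.4 * bud L (U ∪ Lab x L h)) := by
        intro n hn
        obtain ⟨⟨hn1, hn2⟩, hn3, hn4⟩ := mem_Sm.mp hn
        refine ih (by omega) n (by omega) ?_ (fun _ => by omega) _ ?_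
        · calc T n ≤ L * T h := hn4
            _ ≤ L * (L ^ (m₀ - (r + 1)) * T e) := Nat.mul_le_mul_left _ hTh
            _ = L ^ (m₀ - r) * T e := by
              have : m₀ - r = (m₀ - (r + 1)) + 1 := by omega
              rw [this, pow_succ]; ring
        · intro h' hh' hdvd hle' k hk
          have hle2 : T h' ≤ L ^ (r + 1) * T h := by
            calc T h' ≤ L ^ r * T n := hle'
              _ ≤ L ^ r * (L * T h) := Nat.mul_le_mul_left _ hn4
              _ = L ^ (r + 1) * T h := by rw [pow_succ]; ring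
          rcases Finset.mem_union.mp hk with hkU | hkL
          · exact hInv h' (by omega) (dvd_trans hn3 hdvd) hle2 k hkU
          · rintro ⟨n'', hn''⟩
            obtain ⟨hk2, hkL', n', hn'⟩ := mem_Lab hh1 hkL
            obtain ⟨κ, hκ⟩ := dvd_trans hn3 hdvd
            have hκ2 : 2 ≤ κ := by
              by_contra hcon
              have hκ1 : κ ≤ 1 := by omega
              have h1 : T h' ≤ T h := by
                rw [hκ]
                calc T h * κ ≤ T h * 1 := Nat.mul_le_mul_left _ hκ1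
                  _ = T h := by ring
              have h2 : T h < T h' := lt_of_lt_of_le (T_strictMono hn1) (T_strictMono.monotone hh')
              omega
            have hκL : κ ≤ L ^ (r + 1) := by
              rw [hκ, mul_comm] at hle2
              exact Nat.le_of_mul_le_mul_right hle2 hTh0
            have h4s := four_squares k κ (8 * T h) (2 * h + 1) (2 * n' + 1) (2 * h' + 1)
              (2 * n'' + 1) hk2 hκ2 (eight_T h).symm
              (by rw [← eight_T n', hn']; ring) (by rw [← eight_T h', hκ]; ring)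
              (by rw [← eight_T n'', hn'', hκ]; ring)
            have hkκ : k * κ ≤ e := by
              calc k * κ ≤ L * L ^ (r + 1) := Nat.mul_le_mul hkL' hκL
                _ = L ^ (r + 2) := by ring
                _ ≤ L ^ (m₀ + 1) := Nat.pow_le_pow_right (by omega) (by omega)
                _ ≤ e := hrange
            have h5 : 2 * (k * κ) ^ 2 ≤ 2 * e ^ 2 :=
              Nat.mul_le_mul_left _ (Nat.pow_le_pow_left hkκ 2)
            have h6 : T e ≤ T h := T_strictMono.monotone heh
            have h7 := two_T e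
            nlinarith
      -- expand `V h`
      have hVh := hV h
      have hsplit : ∑ n ∈ (Finset.Ioc h x).filter (fun n => T h ∣ T n), (T h : ℝ) / (T n : ℝ) * V n
          = ∑ n ∈ Sm x L h, (T h : ℝ) / (T n : ℝ) * V n +
            ∑ n ∈ (Finset.Ioc h x).filter (fun n => T h ∣ T n ∧ L * T h < T n),
              (T h : ℝ) / (T n : ℝ) * V n := by
        rw [← Finset.sum_filter_add_sum_filter_not ((Finset.Ioc h x).filter (fun n => T h ∣ T n))
          (fun n => T n ≤ L * T h)]
        congr 1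
        · refine Finset.sum_congr ?_ fun _ _ => rfl
          ext n
          simp only [Finset.mem_filter, Sm]
          tauto
        · refine Finset.sum_congr ?_ fun _ _ => rfl
          ext n
          simp only [Finset.mem_filter, not_le]
          tauto
      have hlargeV : ∑ n ∈ (Finset.Ioc h x).filter (fun n => T h ∣ T n ∧ L * T h < T n),
          (T h : ℝ) / (T n : ℝ) * V n ≤ 1 := by
        refine le_trans (Finset.sum_le_sum fun n hn => ?_) (hlarge h heh hle)
        have hn1 := (Finset.mem_Ioc.mp (Finset.mem_filter.mp hn).1).1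
        exact mul_le_mul_of_nonneg_left (hIH n (by omega)) (by positivity)
      set Cr : ℝ := 25 + (0.92 : ℝ) ^ r * Fm with hCr
      have hCr0 : 0 ≤ Cr := by rw [hCr]; positivity
      have hsmallV : ∑ n ∈ Sm x L h, (T h : ℝ) / (T n : ℝ) * V n ≤
          0.92 * Cr * exp (0.4 * bud L U) := by
        calc ∑ n ∈ Sm x L h, (T h : ℝ) / (T n : ℝ) * V n
            ≤ ∑ n ∈ Sm x L h, (T h : ℝ) / (T n : ℝ) *
                (Cr * exp (0.4 * bud L (U ∪ Lab x L h))) := by
              refine Finset.sum_le_sum fun n hn => ?_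
              exact mul_le_mul_of_nonneg_left (hchild n hn) (by positivity)
          _ = theta x L h * (Cr * exp (0.4 * bud L (U ∪ Lab x L h))) := by
              rw [← Finset.sum_mul]; rfl
          _ = theta x L h * (Cr * (exp (0.4 * bud L U) * exp (-(0.4 * theta x L h)))) := by
              rw [hbud, ← Real.exp_add]; ring_nf
          _ = (theta x L h * exp (-(0.4 * theta x L h))) * (Cr * exp (0.4 * bud L U)) := by ring
          _ ≤ 0.92 * (Cr * exp (0.4 * bud L U)) :=
              mul_le_mul_of_nonneg_right (tilt _) (by positivity)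
          _ = 0.92 * Cr * exp (0.4 * bud L U) := by ring
      have hone : (1 : ℝ) ≤ exp (0.4 * bud L U) := by
        rw [← Real.exp_zero]
        exact Real.exp_le_exp.mpr (by have := bud_nonneg L U; positivity)
      rw [hsplit] at hVh
      have hfin : V h ≤ 2 + 0.92 * Cr * exp (0.4 * bud L U) := by linarith
      have h25 : (25 + (0.92 : ℝ) ^ (r + 1) * Fm) = 2 + 0.92 * Cr := by
        rw [hCr, pow_succ]; ring
      rw [h25, add_mul]
      linarith
  have hfinal := inner m₀ le_rfl e le_rfl (by simp) (by omega) ∅ (by simp)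
  refine le_trans hfinal ?_
  refine mul_le_mul_of_nonneg_left (Real.exp_le_exp.mpr ?_) (by positivity)
  refine mul_le_mul_of_nonneg_left ?_ (by norm_num)
  -- harmonic sum
  have hb : bud L ∅ ≤ log (L : ℝ) := by
    unfold bud
    rw [Finset.sdiff_empty]
    have h1 : ∀ N : ℕ, 1 ≤ N → ∑ k ∈ Finset.Icc 2 N, (1 : ℝ) / k ≤ log (N : ℝ) := by
      intro N hN
      induction N, hN using Nat.le_induction with
      | base => simp
      | succ N hN ihN =>
        rw [Finset.sum_Icc_succ_top (by omega)]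
        have hN0 : (0 : ℝ) < N := by exact_mod_cast (by omega : 0 < N)
        have h2 : (1 : ℝ) / ((N + 1 : ℕ) : ℝ) ≤ log ((N + 1 : ℕ) : ℝ) - log (N : ℝ) := by
          rw [← Real.log_div (by positivity) (by positivity)]
          have h3 := Real.one_sub_inv_le_log_of_pos (x := ((N + 1 : ℕ) : ℝ) / N) (by positivity)
          refine le_trans (le_of_eq ?_) h3
          push_cast
          field_simp
          ring
        linarith
    exact h1 L (by omega)
  have hLs : ((L : ℕ) : ℝ) = (s : ℝ) ^ 2 := by rw [hL]; push_cast; ring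
  rw [← hLs]
  exact hb

end Pool.Agent.T2H24.MT
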