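import Pool.Agent.T2H24.MT.Defs

/-!
# Package SE : from large `e` to `e = 1`

PROOF.  Downward induction on `e` from `e₀` to 1: there is `C_e` with `V n ≤ C_e √n` for all
`n ≥ e`, all `x`, all `V` with `IsV x V` (start: `(log n)^13 ≤ C √n`; for the step,
`V e ≤ 1 + T e ∑_{n > e} C √n / T n` and the series `∑ √n / T n` converges, compare with
`2 n^(-3/2)`).
-/
namespace Pool.Agent.T2H24.MT

open Real

theorem se_sum : ∃ S : ℝ, 0 ≤ S ∧ ∀ s : Finset ℕ, ∑ n ∈ s, √(n : ℝ) / (T n : ℝ) ≤ S := by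
  have h1 : Summable fun n : ℕ => 2 * (1 / (n : ℝ) ^ (3 / 2 : ℝ)) :=
    (Real.summable_one_div_nat_rpow.2 (by norm_num)).mul_left 2
  have h2 : ∀ n : ℕ, 0 ≤ 2 * (1 / (n : ℝ) ^ (3 / 2 : ℝ)) := fun n => by positivity
  refine ⟨∑' n : ℕ, 2 * (1 / (n : ℝ) ^ (3 / 2 : ℝ)), tsum_nonneg h2, fun s => ?_⟩
  refine le_trans (Finset.sum_le_sum fun n _ => ?_) (h1.sum_le_tsum s fun n _ => h2 n)
  rcases Nat.eq_zero_or_pos n with rfl | hn
  · simp
  · have hn' : (0 : ℝ) < n := by exact_mod_cast hn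
    have h3 : (2 : ℝ) * (T n : ℝ) = n * (n + 1) := by exact_mod_cast two_T n
    have h4 : (0 : ℝ) < T n := by exact_mod_cast T_pos hn
    have h5 : (n : ℝ) ^ (3 / 2 : ℝ) = n * √(n : ℝ) := by
      rw [Real.sqrt_eq_rpow, show (3 / 2 : ℝ) = 1 + 1 / 2 by norm_num, Real.rpow_add hn',
        Real.rpow_one]
    have h6 : 0 < √(n : ℝ) := Real.sqrt_pos.2 hn'
    rw [h5, ← mul_div_assoc, mul_one, div_le_div_iff₀ h4 (by positivity)]
    have h7 : √(n : ℝ) * √(n : ℝ) = n := Real.mul_self_sqrt hn'.le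
    nlinarith

theorem se_log (n : ℕ) : (log (n : ℝ)) ^ 13 ≤ 26 ^ 13 * √(n : ℝ) := by
  rcases Nat.eq_zero_or_pos n with rfl | hn
  · simp
  · have hn' : (1 : ℝ) ≤ n := by exact_mod_cast hn
    have h1 : log (n : ℝ) ≤ (n : ℝ) ^ (1 / 26 : ℝ) / (1 / 26) :=
      Real.log_le_rpow_div (by linarith) (by norm_num)
    have h2 : 0 ≤ log (n : ℝ) := Real.log_nonneg hn'
    calc (log (n : ℝ)) ^ 13 ≤ ((n : ℝ) ^ (1 / 26 : ℝ) / (1 / 26)) ^ 13 :=
          pow_le_pow_left₀ h2 h1 13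
      _ = 26 ^ 13 * ((n : ℝ) ^ (1 / 26 : ℝ)) ^ 13 := by ring
      _ = 26 ^ 13 * √(n : ℝ) := by
          rw [← Real.rpow_natCast ((n : ℝ) ^ (1 / 26 : ℝ)) 13, ← Real.rpow_mul (by linarith),
            Real.sqrt_eq_rpow]
          norm_num

theorem small_e (e₀ : ℕ) (h : ∀ (x : ℕ) (V : ℕ → ℝ), IsV x V → ∀ e : ℕ, e₀ ≤ e →
    V e ≤ (log (e : ℝ)) ^ 13) :
    ∃ C : ℝ, ∀ (x : ℕ) (V : ℕ → ℝ), IsV x V → V 1 ≤ C := by
  obtain ⟨S, hS0, hS⟩ := se_sum
  have key : ∀ k : ℕ, ∃ C : ℝ, 0 ≤ C ∧ ∀ (x : ℕ) (V : ℕ → ℝ), IsV x V → ∀ n : ℕ, 1 ≤ n →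
      e₀ ≤ n + k → V n ≤ C * √(n : ℝ) := by
    intro k
    induction k with
    | zero =>
      exact ⟨26 ^ 13, by positivity, fun x V hV n _ hn => (h x V hV n hn).trans (se_log n)⟩
    | succ k ih =>
      obtain ⟨C, hC, h1⟩ := ih
      refine ⟨max C (1 + (T e₀ : ℝ) * (C * S)), le_max_of_le_left hC, fun x V hV n hn hnk => ?_⟩
      have hn' : (1 : ℝ) ≤ n := by exact_mod_cast hn
      have h6 : 1 ≤ √(n : ℝ) := Real.one_le_sqrt.2 hn'
      rcases Nat.lt_or_ge (n + k) e₀ with h2 | h2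
      · have h3 := hV n
        have h4 : ∑ m ∈ (Finset.Ioc n x).filter (fun m => T n ∣ T m),
            (T n : ℝ) / (T m : ℝ) * V m ≤ (T n : ℝ) * (C * S) := by
          calc _ ≤ ∑ m ∈ (Finset.Ioc n x).filter (fun m => T n ∣ T m),
              (T n : ℝ) * (C * (√(m : ℝ) / (T m : ℝ))) := by
                refine Finset.sum_le_sum fun m hm => ?_
                have hm1 := (Finset.mem_Ioc.1 (Finset.mem_filter.1 hm).1).1
                have h5 := h1 x V hV m (by omega) (by omega)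
                calc (T n : ℝ) / (T m : ℝ) * V m ≤ (T n : ℝ) / (T m : ℝ) * (C * √(m : ℝ)) :=
                      mul_le_mul_of_nonneg_left h5 (by positivity)
                  _ = _ := by ring
            _ = (T n : ℝ) * (C * ∑ m ∈ (Finset.Ioc n x).filter (fun m => T n ∣ T m),
                √(m : ℝ) / (T m : ℝ)) := by
                rw [Finset.mul_sum, Finset.mul_sum]
            _ ≤ _ := by
                have := hS ((Finset.Ioc n x).filter (fun m => T n ∣ T m))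
                gcongr
        have h5 : (T n : ℝ) * (C * S) ≤ (T e₀ : ℝ) * (C * S) := by
          refine mul_le_mul_of_nonneg_right ?_ (by positivity)
          exact_mod_cast T_strictMono.monotone (by omega : n ≤ e₀)
        have h7 : V n ≤ max C (1 + (T e₀ : ℝ) * (C * S)) := by
          refine le_max_of_le_right ?_
          rw [h3]
          linarith
        have h8 : 0 ≤ max C (1 + (T e₀ : ℝ) * (C * S)) := le_max_of_le_left hC
        nlinarith
      · refine (h1 x V hV n hn h2).trans ?_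
        exact mul_le_mul_of_nonneg_right (le_max_left _ _) (Real.sqrt_nonneg _)
  obtain ⟨C, -, h1⟩ := key e₀
  refine ⟨C, fun x V hV => ?_⟩
  have := h1 x V hV 1 le_rfl (by omega)
  simpa using this

end Pool.Agent.T2H24.MT
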