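import Pool.Agent.T2H24.MT.FS
import Pool.Agent.T2H24.MT.LB
import Pool.Agent.T2H24.MT.AS
import Pool.Agent.T2H24.MT.MI
import Pool.Agent.T2H24.MT.DU
import Pool.Agent.T2H24.MT.SE

/-!
# Final assembly
-/
namespace Pool.Agent.T2H24.MT

open Real Filter Topology

theorem main_bound : ∃ e₀ : ℕ, ∀ (x : ℕ) (V : ℕ → ℝ), IsV x V → ∀ e : ℕ, e₀ ≤ e →
    V e ≤ (log (e : ℝ)) ^ 13 := by
  obtain ⟨e₁, h₁⟩ := large_part
  obtain ⟨e₂, h₂⟩ := params
  refine ⟨max (max e₁ e₂) 16, fun x V hV => ?_⟩
  -- strong induction on `x - e`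
  have key : ∀ d : ℕ, ∀ e : ℕ, x - e ≤ d → max (max e₁ e₂) 16 ≤ e → V e ≤ (log (e : ℝ)) ^ 13 := by
    intro d
    induction d with
    | zero =>
      intro e hd he
      have h16 : 16 ≤ e := le_trans (le_max_right _ _) he
      have hlog : (1 : ℝ) ≤ log (e : ℝ) := by
        have h3 : exp 1 ≤ (e : ℝ) := by
          have : (16 : ℝ) ≤ e := by exact_mod_cast h16
          have := Real.exp_one_lt_d9
          linarith
        calc (1 : ℝ) = log (exp 1) := (Real.log_exp 1).symm
          _ ≤ log (e : ℝ) := Real.log_le_log (Real.exp_pos 1) h3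
      have hempty : Finset.Ioc e x = ∅ := Finset.Ioc_eq_empty_of_le (by omega)
      rw [hV e, hempty]
      simp only [Finset.filter_empty, Finset.sum_empty, add_zero]
      exact one_le_pow₀ hlog
    | succ d ih =>
      intro e hd he
      have h16 : 16 ≤ e := le_trans (le_max_right _ _) he
      have he1 : e₁ ≤ e := le_trans (le_trans (le_max_left _ _) (le_max_left _ _)) he
      have he2 : e₂ ≤ e := le_trans (le_trans (le_max_right _ _) (le_max_left _ _)) he
      obtain ⟨s, m₀, hs1, hs2, hs3, hm, hr, hfin⟩ := h₂ e he2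
      refine le_trans (block x V hV e s m₀ h16 hs2 hm hr ?_ ?_) hfin
      · intro n hn
        rcases Nat.lt_or_ge n x with hnx | hnx
        · exact ih n (by omega) (by omega)
        · have hlog : (1 : ℝ) ≤ log (n : ℝ) := by
            have h3 : exp 1 ≤ (n : ℝ) := by
              have : (16 : ℝ) ≤ n := by exact_mod_cast (by omega : 16 ≤ n)
              have := Real.exp_one_lt_d9
              linarith
            calc (1 : ℝ) = log (exp 1) := (Real.log_exp 1).symm
              _ ≤ log (n : ℝ) := Real.log_le_log (Real.exp_pos 1) h3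
          have hempty : Finset.Ioc n x = ∅ := Finset.Ioc_eq_empty_of_le (by omega)
          rw [hV n, hempty]
          simp only [Finset.filter_empty, Finset.sum_empty, add_zero]
          exact one_le_pow₀ hlog
      · intro h hh1 hh2
        exact h₁ e he1 s hs1 hs3 h hh1 hh2 x
  intro e he
  exact key (x - e) e le_rfl he

/-- The main estimate: a nonnegative function with `a m ≤ ∑_{d < m, T d ∣ T m} a d` has
`∑ a n / T n` bounded. -/
theorem sum_bound : ∃ C : ℝ, ∀ a : ℕ → ℝ, (∀ n, 0 ≤ a n) → a 1 = 1 →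
    (∀ m : ℕ, 2 ≤ m → a m ≤ ∑ d ∈ (Finset.Ico 1 m).filter (fun d => T d ∣ T m), a d) →
    ∀ x : ℕ, ∑ n ∈ Finset.Icc 1 x, a n / (T n : ℝ) ≤ C := by
  obtain ⟨e₀, h₀⟩ := main_bound
  obtain ⟨C, hC⟩ := small_e e₀ h₀
  refine ⟨max C 1, fun a ha ha1 h x => ?_⟩
  rcases Nat.lt_or_ge x 1 with hx | hx
  · have : x = 0 := by omega
    subst this
    simp
  · obtain ⟨V, hV⟩ := exists_V x
    have := duality x hx V hV a ha (fun m hm => h m (Finset.mem_Icc.mp hm).1)
    rw [ha1, one_mul] at this
    exact le_trans this (le_trans (hC x V hV) (le_max_left _ _))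

end Pool.Agent.T2H24.MT
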