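import Pool.Agent.T2H24.MT.Defs

/-!
# Package VD : few `n` with `T e ∣ T n` in a window of length `e/4`

PROOF.  Let `t = Nat.log 4 e + 1`, so `e < 4^t ≤ 4^(2t-1)`.  Suppose there are `2t` different
elements `n_0 < ... < n_{2t-1}` in the window.  Let `p_{2a} = (X(X+1))^a`,
`p_{2a+1} = X (X(X+1))^a` (integer polynomials, `p_j` monic of degree `j`).  By
`Matrix.det_eval_matrixOfPolynomials_eq_det_vandermonde` the determinant of `(p_j(n_i))` is the
Vandermonde determinant `∏_{i<j} (n_j - n_i) ≠ 0`, of absolute value `≤ (e/4)^(t(2t-1))`.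
As `T e ∣ T n` means `e(e+1) ∣ n(n+1)`, column `j` is divisible by `(e(e+1))^(j/2)`, so the
determinant is divisible by `(e(e+1))^(t(t-1))`.  Hence
`e^(2t(t-1)) ≤ (e(e+1))^(t(t-1)) ≤ (e/4)^(t(2t-1))`, i.e. `4^(t(2t-1)) ≤ e^t`, `4^(2t-1) ≤ e`,
contradiction.
-/
namespace Pool.Agent.T2H24.MT

open Polynomial Finset

theorem vd_sum_half (t : ℕ) : ∑ j ∈ Finset.range (2 * t), j / 2 = t * (t - 1) := by
  induction t with
  | zero => simp
  | succ t ih =>
    rw [show 2 * (t + 1) = 2 * t + 1 + 1 by ring, Finset.sum_range_succ, Finset.sum_range_succ, ih]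
    have h1 : 2 * t / 2 = t := by omega
    have h2 : (2 * t + 1) / 2 = t := by omega
    rw [h1, h2]
    cases t with
    | zero => rfl
    | succ t => simp only [Nat.add_sub_cancel]; ring

theorem vd_sum_pairs (t : ℕ) : ∑ i : Fin (2 * t), (Finset.Ioi i).card = t * (2 * t - 1) := by
  have h1 : ∑ i : Fin (2 * t), (Finset.Ioi i).card = ∑ i ∈ Finset.range (2 * t), (2 * t - 1 - i) := by
    rw [Finset.sum_range]
    refine Finset.sum_congr rfl fun i _ => ?_
    rw [Fin.card_Ioi]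
  rw [h1, Finset.sum_range_reflect (fun i => i) (2 * t), Finset.sum_range_id]
  rw [mul_assoc, Nat.mul_div_cancel_left _ (by norm_num)]

theorem count_window (e : ℕ) (he : 1 ≤ e) (a : ℕ) (S : Finset ℕ)
    (hS : ∀ n ∈ S, a ≤ n ∧ n ≤ a + e / 4 ∧ T e ∣ T n) :
    S.card ≤ 2 * Nat.log 4 e + 1 := by
  by_contra hcon
  push Not at hcon
  set t := Nat.log 4 e + 1 with ht
  have hlt : e < 4 ^ t := Nat.lt_pow_succ_log_self (by norm_num) e
  have ht1 : 1 ≤ t := by omega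
  obtain ⟨S', hS'S, hS'c⟩ := Finset.exists_subset_card_eq (show 2 * t ≤ S.card by omega)
  let f := S'.orderEmbOfFin hS'c
  have hfm : ∀ i, f i ∈ S := fun i => hS'S (Finset.orderEmbOfFin_mem S' hS'c i)
  have hinj : Function.Injective (fun i => ((f i : ℕ) : ℤ)) := by
    intro i j hij
    have hij' : ((f i : ℕ) : ℤ) = ((f j : ℕ) : ℤ) := hij
    exact f.injective (Nat.cast_injective hij')
  let v : Fin (2 * t) → ℤ := fun i => ((f i : ℕ) : ℤ)
  let p : Fin (2 * t) → ℤ[X] := fun j => (X * (X + 1)) ^ ((j : ℕ) / 2) * X ^ ((j : ℕ) % 2)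
  have hX1 : (X + 1 : ℤ[X]).Monic := by
    simpa using monic_X_add_C (1 : ℤ)
  have hX1d : (X + 1 : ℤ[X]).natDegree = 1 := by
    simpa using natDegree_X_add_C (1 : ℤ)
  have hm : (X * (X + 1) : ℤ[X]).Monic := monic_X.mul hX1
  have hmd : (X * (X + 1) : ℤ[X]).natDegree = 2 := by
    rw [monic_X.natDegree_mul hX1, natDegree_X, hX1d]
  have hdeg : ∀ j, (p j).natDegree = j := by
    intro j
    show ((X * (X + 1)) ^ ((j : ℕ) / 2) * X ^ ((j : ℕ) % 2) : ℤ[X]).natDegree = j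
    rw [(hm.pow _).natDegree_mul (monic_X_pow _), hm.natDegree_pow, hmd, natDegree_X_pow]
    omega
  have hmon : ∀ j, (p j).Monic := fun j => (hm.pow _).mul (monic_X_pow _)
  have hdet := Matrix.det_eval_matrixOfPolynomials_eq_det_vandermonde v p hdeg hmon
  set c : ℤ := (e : ℤ) * (e + 1) with hc
  have hcpos : 0 < c := by positivity
  have hdv : ∀ i, c ∣ v i * (v i + 1) := by
    intro i
    obtain ⟨q, hq⟩ := (hS _ (hfm i)).2.2
    refine ⟨(q : ℤ), ?_⟩
    have h1 := two_T e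
    have h2 := two_T (f i)
    have h3 : (f i) * (f i + 1) = e * (e + 1) * q := by
      rw [← h1, ← h2, hq]; ring
    show ((f i : ℕ) : ℤ) * (((f i : ℕ) : ℤ) + 1) = (e : ℤ) * (e + 1) * q
    exact_mod_cast h3
  choose q hq using hdv
  have hfac : (Matrix.of fun i j => (p j).eval (v i)) =
      (Matrix.of fun i j => (fun j : Fin (2 * t) => c ^ ((j : ℕ) / 2)) j *
        (Matrix.of fun (i j : Fin (2 * t)) => q i ^ ((j : ℕ) / 2) * v i ^ ((j : ℕ) % 2)) i j) := by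
    ext i j
    simp only [Matrix.of_apply, p, eval_mul, eval_pow, eval_X, eval_add, eval_one]
    rw [hq i, mul_pow, mul_assoc]
  rw [hfac, Matrix.det_mul_row] at hdet
  have hprod : ∏ j : Fin (2 * t), (fun j : Fin (2 * t) => c ^ ((j : ℕ) / 2)) j = c ^ (t * (t - 1)) := by
    rw [Finset.prod_pow_eq_pow_sum, ← vd_sum_half t, Finset.sum_range]
  rw [hprod] at hdet
  have hne : (Matrix.vandermonde v).det ≠ 0 := Matrix.det_vandermonde_ne_zero_iff.2 hinj
  have hle : c ^ (t * (t - 1)) ≤ |(Matrix.vandermonde v).det| := by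
    refine Int.le_of_dvd (abs_pos.2 hne) ?_
    rw [dvd_abs]
    exact ⟨_, hdet⟩
  have hle2 : (|(Matrix.vandermonde v).det| : ℝ) ≤ ((e : ℝ) / 4) ^ (t * (2 * t - 1)) := by
    rw [Matrix.det_vandermonde]
    push_cast
    rw [Finset.abs_prod, ← vd_sum_pairs, ← Finset.prod_pow_eq_pow_sum]
    refine Finset.prod_le_prod (fun _ _ => abs_nonneg _) fun i _ => ?_
    rw [Finset.abs_prod]
    refine (Finset.prod_le_prod (fun _ _ => abs_nonneg _) (g := fun _ => (e : ℝ) / 4)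
      fun j _ => ?_).trans_eq (by rw [Finset.prod_const])
    have h1 := hS _ (hfm i)
    have h2 := hS _ (hfm j)
    have h3 : ((e / 4 : ℕ) : ℝ) ≤ (e : ℝ) / 4 := Nat.cast_div_le
    have e1 : (a : ℝ) ≤ (f i : ℕ) := by exact_mod_cast h1.1
    have e2 : ((f i : ℕ) : ℝ) ≤ a + (e / 4 : ℕ) := by exact_mod_cast h1.2.1
    have e3 : (a : ℝ) ≤ (f j : ℕ) := by exact_mod_cast h2.1
    have e4 : ((f j : ℕ) : ℝ) ≤ a + (e / 4 : ℕ) := by exact_mod_cast h2.2.1
    show |(((f j : ℕ) : ℤ) : ℝ) - (((f i : ℕ) : ℤ) : ℝ)| ≤ _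
    push_cast
    rw [abs_le]
    constructor <;> linarith
  have hle' : ((c ^ (t * (t - 1)) : ℤ) : ℝ) ≤ (|(Matrix.vandermonde v).det| : ℝ) := by
    have : ((c ^ (t * (t - 1)) : ℤ) : ℝ) ≤ ((|(Matrix.vandermonde v).det| : ℤ) : ℝ) := by
      exact_mod_cast hle
    simpa using this
  have he0 : (0 : ℝ) < e := by exact_mod_cast he
  have h5 : (e : ℝ) ^ (2 * (t * (t - 1))) ≤ ((c ^ (t * (t - 1)) : ℤ) : ℝ) := by
    push_cast [hc]
    rw [pow_mul]
    refine pow_le_pow_left₀ (by positivity) ?_ _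
    nlinarith
  have h6 : (e : ℝ) ^ (2 * (t * (t - 1))) ≤ ((e : ℝ) / 4) ^ (t * (2 * t - 1)) :=
    h5.trans (hle'.trans hle2)
  have h7 : t * (2 * t - 1) = 2 * (t * (t - 1)) + t := by
    clear_value t
    obtain ⟨s, rfl⟩ : ∃ s, t = s + 1 := ⟨t - 1, by omega⟩
    have : 2 * (s + 1) - 1 = 2 * s + 1 := by omega
    rw [this, Nat.add_sub_cancel]; ring
  rw [div_pow, le_div_iff₀ (by positivity)] at h6
  have h8 : (e : ℝ) ^ (t * (2 * t - 1)) = (e : ℝ) ^ (2 * (t * (t - 1))) * (e : ℝ) ^ t := by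
    rw [h7, pow_add]
  rw [h8] at h6
  have h9 : (4 : ℝ) ^ (t * (2 * t - 1)) ≤ (e : ℝ) ^ t :=
    le_of_mul_le_mul_left h6 (by positivity)
  rw [mul_comm t, pow_mul] at h9
  have h10 : (4 : ℝ) ^ (2 * t - 1) ≤ e := (pow_le_pow_iff_left₀ (by positivity) (by positivity) (by omega)).1 h9
  have h11 : 4 ^ (2 * t - 1) ≤ e := by exact_mod_cast h10
  have h12 : 4 ^ t ≤ 4 ^ (2 * t - 1) := Nat.pow_le_pow_right (by norm_num) (by omega)
  omega

end Pool.Agent.T2H24.MT
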